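import Pool.Agent.Helper59.MB.Goals1

/-!
# MB-LCS
-/

set_option autoImplicit false

open MeasureTheory Filter Topology

namespace Pool.Agent.Helper31.MB

open Pool.Agent.Helper59.MB

theorem lcs_P {s s' : ℕ → ℕ} {k : ℕ} (h : s k = s' k) : P s k = P s' k := by
  unfold P
  rw [h]

theorem lcs_ev {s s' : ℕ → ℕ} {l : ℕ} (h : ∀ i ≤ l, s i = s' i) (w : Wd) (i : ℕ) :
    ev s l w i = ev s' l w i := by
  have key : ((spec l).1 ≤ l ∧ (spec l).1 ≤ i % P s l ∧ i % P s l + (spec l).1 < P s l ∧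
      hit s (spec l) w i) ↔ ((spec l).1 ≤ l ∧ (spec l).1 ≤ i % P s' l ∧
      i % P s' l + (spec l).1 < P s' l ∧ hit s' (spec l) w i) := by
    rw [lcs_P (h l le_rfl)]
    refine and_congr_right fun h1 => ?_
    unfold hit
    rw [lcs_P (h _ h1)]
  unfold ev
  by_cases hh : (spec l).1 ≤ l ∧ (spec l).1 ≤ i % P s l ∧ i % P s l + (spec l).1 < P s l ∧
      hit s (spec l) w i
  · rw [if_pos hh, if_pos (key.1 hh)]
  · rw [if_neg hh, if_neg fun h' => hh (key.2 h')]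

theorem lcs_cat {s s' : ℕ → ℕ} {k : ℕ} (h : s k = s' k) (Φ : Wd → Wd) :
    cat s k Φ = cat s' k Φ := by
  funext w i
  unfold cat
  rw [lcs_P h]

theorem lcs_mean {s s' : ℕ → ℕ} (m : Measure A) [IsProbabilityMeasure m] {l : ℕ}
    (h : ∀ i ≤ l, s i = s' i) (Φ : Wd → Wd) (ρ : ℕ) : mean s m Φ l ρ = mean s' m Φ l ρ := by
  unfold mean
  simp only [lcs_ev h]

theorem lcs_GoodW {s s' : ℕ → ℕ} (V : ℕ → Set (ℕ → ℝ)) {k : ℕ} (h : ∀ i ≤ k + 1, s i = s' i)
    (η : ℝ) {e e' : ℕ → ℕ → ℝ} (he : ∀ l ≤ k, ∀ ρ, e l ρ = e' l ρ) (w : Wd) :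
    GoodW s V k η e w ↔ GoodW s' V k η e' w := by
  unfold GoodW
  refine forall_congr' fun l => forall_congr' fun hl => ?_
  have hk : P s k = P s' k := lcs_P (h k (Nat.le_succ k))
  have hk1 : P s (k + 1) = P s' (k + 1) := lcs_P (h (k + 1) le_rfl)
  have hev : ∀ w i, ev s l w i = ev s' l w i :=
    lcs_ev fun i hi => h i ((hi.trans hl).trans (Nat.le_succ k))
  simp only [hk, hk1, hev, he l hl]

theorem lcs_nxt {s s' : ℕ → ℕ} (V : ℕ → Set (ℕ → ℝ)) (m : Measure A) [IsProbabilityMeasure m]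
    {k : ℕ} (h : ∀ i ≤ k + 1, s i = s' i) (Φ : Wd → Wd) : nxt s V m k Φ = nxt s' V m k Φ := by
  have hc : cat s k Φ = cat s' k Φ := lcs_cat (h k (Nat.le_succ k)) Φ
  have hm : ∀ l ≤ k, ∀ ρ, mean s m Φ l ρ = mean s' m Φ l ρ := fun l hl ρ =>
    lcs_mean m (fun i hi => h i ((hi.trans hl).trans (Nat.le_succ k))) Φ ρ
  have hg : gw s V m k Φ = gw s' V m k Φ := by
    unfold gw
    rw [hc]
    congr 2
    funext w
    exact propext (lcs_GoodW V h _ hm _)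
  funext w
  unfold nxt
  rw [hc, hg]
  have key := lcs_GoodW V h (1 / ((k : ℝ) + 1)) hm (cat s' k Φ w)
  by_cases hh : GoodW s V k (1 / ((k : ℝ) + 1)) (mean s m Φ) (cat s' k Φ w)
  · rw [if_pos hh, if_pos (key.1 hh)]
  · rw [if_neg hh, if_neg fun h' => hh (key.2 h')]

theorem lcs_Phi {s s' : ℕ → ℕ} (V : ℕ → Set (ℕ → ℝ)) (m : Measure A) [IsProbabilityMeasure m] :
    ∀ k : ℕ, (∀ i ≤ k, s i = s' i) → Phi s V m k = Phi s' V m k := by
  intro k
  induction k with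
  | zero => intro _; rfl
  | succ k ih =>
    intro h
    show nxt s V m k (Phi s V m k) = nxt s' V m k (Phi s' V m k)
    rw [ih fun i hi => h i (hi.trans (Nat.le_succ k)), lcs_nxt V m h]

theorem t_LCS : S_LCS := by
  intro s s' V m _ k h
  have hP : Phi s V m k = Phi s' V m k := lcs_Phi V m k h
  have hE : ∀ l ≤ k, ∀ ρ : ℕ, E s V m k l ρ = E s' V m k l ρ := by
    intro l hl ρ
    unfold E
    rw [hP]
    exact lcs_mean m (fun i hi => h i (hi.trans hl)) _ ρ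
  refine ⟨fun l hl w i => lcs_ev (fun i hi => h i (hi.trans hl)) w i, hP, hE, ?_⟩
  intro h1
  have h2 : ∀ i ≤ k + 1, s i = s' i := by
    intro i hi
    rcases Nat.le_succ_iff.1 hi with hi | hi
    · exact h i hi
    · rw [hi]
      exact h1
  have hH : ∀ w : Wd, HGood s V m k w ↔ HGood s' V m k w := fun w =>
    lcs_GoodW V h2 _ hE w
  refine ⟨fun w => lcs_GoodW V h2 _ hE w, hH, ?_⟩
  unfold Adm
  rw [hP, lcs_cat (h k le_rfl), lcs_P (h k le_rfl), lcs_P h1]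
  simp only [hH]

end Pool.Agent.Helper31.MB
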