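import Pool.Agent.Helper59.MB.Goals3
import Pool.Agent.Helper25.MB.HAR
import Pool.Agent.Helper12.MB.BLK

/-!
# MB-MOA
-/

set_option autoImplicit false

open MeasureTheory Filter Topology

namespace Pool.Agent.Helper31.MB

open Pool.Agent.Helper59.MB

theorem moa_shift (Z : Type) [MeasurableSpace Z] (κ : Measure Z) [IsProbabilityMeasure κ] :
    MeasurePreserving (shiftZ Z) (Be κ) (Be κ) := by
  refine ⟨measurable_pi_lambda _ fun n => measurable_pi_apply (n + 1), ?_⟩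
  exact Pool.Agent.Helper12.MB.t_BLK Z κ ℤ ℤ (fun n => n + 1) (add_left_injective 1)

theorem moa_TZ (Z : Type) [MeasurableSpace Z] (κ : Measure Z) [IsProbabilityMeasure κ] :
    MeasurePreserving (TZ Z) (BZ κ) (BZ κ) := by
  have := Pool.Agent.Helper25.MB.haar2_prob
  have hp : IsProbabilityMeasure (Be κ) := by unfold Be; infer_instance
  exact (moa_shift Z κ).prod (Pool.Agent.Helper25.MB.haar2_add 1)

theorem t_MOA (hMOD1 : S_MOD1) (hNMD : S_NMD) (hALP : S_ALP) (hISA : S_ISA) : S_MOA := by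
  refine ⟨?_, ?_⟩
  · intro Z _ _ κ _
    obtain ⟨m, hm, hi, -, -⟩ := hALP Z κ
    obtain ⟨Y, i1, i2, i3, i4, T, ν, h1, h2, h3⟩ := hMOD1 m
    exact ⟨Y, i1, i2, i3, i4, T, ν, h1,
      hISA.2 _ _ _ _ _ _ _ _ _ h2 (hISA.1 _ _ _ _ _ _ (moa_TZ Z κ) hi), h3⟩
  · rintro ⟨δ, hδ, hNP⟩ Z _ _ κ _ hκ
    obtain ⟨m, hm, hi, -, hj⟩ := hALP Z κ
    obtain ⟨Y, i1, i2, i3, i4, T, ν, h1, h2, h3⟩ := hNMD m (hj hκ) δ hδ hNP
    exact ⟨Y, i1, i2, i3, i4, T, ν, h1,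
      hISA.2 _ _ _ _ _ _ _ _ _ h2 (hISA.1 _ _ _ _ _ _ (moa_TZ Z κ) hi), h3⟩

end Pool.Agent.Helper31.MB
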