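import Pool.Agent.Helper70.MB.Goals

/-! Packet MB-SCAL of helper70: scaled forms of the cutoff inequalities. -/

set_option autoImplicit false

namespace Pool.Agent.Helper31.MB

open MeasureTheory Set Metric
open Pool.Agent.Results.MP_91ee6f_gt Pool.Agent.Helper70.MB

theorem br_scale {n : ℕ} {ρ : ℝ} (hρ : 0 < ρ) (b : En n) :
    br (ρ⁻¹ • b) ≤ (max 1 ρ⁻¹) ^ 2 * br b := by
  unfold br
  rw [norm_smul, norm_inv, Real.norm_of_nonneg hρ.le]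
  set μ := max 1 ρ⁻¹ with hμ
  have h1 : 1 ≤ μ := le_max_left _ _
  have h2 : ρ⁻¹ ≤ μ := le_max_right _ _
  have h3 : 0 ≤ ρ⁻¹ := by positivity
  have h4 : ρ⁻¹ ^ 2 ≤ μ ^ 2 := pow_le_pow_left₀ h3 h2 2
  have h5 : (2 * Real.pi * (ρ⁻¹ * ‖b‖)) ^ 2 = ρ⁻¹ ^ 2 * (2 * Real.pi * ‖b‖) ^ 2 := by ring
  rw [h5]
  have h6 : 0 ≤ (2 * Real.pi * ‖b‖) ^ 2 := sq_nonneg _
  nlinarith [mul_le_mul_of_nonneg_right h4 h6]

theorem br_scale_pow {n : ℕ} {ρ : ℝ} (hρ : 0 < ρ) {t : ℝ} (ht : 0 ≤ t) (b : En n) :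
    br (ρ⁻¹ • b) ^ t ≤ (max 1 ρ⁻¹) ^ (2 * t) * br b ^ t := by
  have hμ : (0 : ℝ) ≤ max 1 ρ⁻¹ := le_trans zero_le_one (le_max_left _ _)
  calc br (ρ⁻¹ • b) ^ t ≤ ((max 1 ρ⁻¹) ^ 2 * br b) ^ t :=
        Real.rpow_le_rpow (br_pos _).le (br_scale hρ b) ht
    _ = (max 1 ρ⁻¹) ^ (2 * t) * br b ^ t := by
        rw [Real.mul_rpow (by positivity) (br_pos _).le, ← Real.rpow_natCast, ← Real.rpow_mul hμ]
        norm_num

theorem subst_int {n : ℕ} {ρ : ℝ} (hρ : 0 < ρ) (f : En n → ℝ) :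
    ρ ^ n * ∫ a : En n, f (ρ • a) = ∫ b, f b := by
  have h := Measure.integral_comp_smul (volume : Measure (En n)) f ρ
  have hd : Module.finrank ℝ (En n) = n := finrank_euclideanSpace_fin
  rw [hd, abs_of_pos (by positivity), smul_eq_mul] at h
  rw [h, ← mul_assoc, mul_inv_cancel₀ (by positivity), one_mul]

theorem norm_hat_cut (hS : CUTS) {n : ℕ} (x₀ : En n) {ρ : ℝ} (hρ : 0 < ρ) (ξ : En n) :
    ‖hat (cut x₀ ρ) ξ‖ = ρ ^ n * ‖hat chi (ρ • ξ)‖ := by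
  rw [hS n x₀ ρ hρ ξ, norm_mul, norm_mul, norm_pow, Complex.norm_real, Real.norm_of_nonneg hρ.le,
    Complex.norm_exp_ofReal_mul_I, mul_one]

theorem ad_cut (hF : CUTF) {n : ℕ} {χ : En n → ℝ} (h : IsCut χ) : Ad χ := by
  have hi : Integrable χ := h.1.continuous.integrable_of_hasCompactSupport h.2
  refine ⟨h.1.continuous, hi, ?_⟩
  obtain ⟨C, hC⟩ := (hF n χ h).2.1 0
  have h1 := (hF n χ h).1 (sx n)
  refine (h1.const_mul C).mono' ?_ (Filter.Eventually.of_forall fun ξ => ?_)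
  · exact ((continuous_br_rpow (sx n)).mul ((continuous_hat hi).norm.pow 2)).aestronglyMeasurable
  · have h2 := hC ξ
    rw [Real.rpow_zero, one_mul] at h2
    have h3 := (br_rpow_pos ξ (sx n)).le
    rw [Real.norm_of_nonneg (mul_nonneg h3 (sq_nonneg _))]
    have h4 : 0 ≤ br ξ ^ sx n * ‖hat χ ξ‖ := mul_nonneg h3 (norm_nonneg _)
    calc br ξ ^ sx n * ‖hat χ ξ‖ ^ 2 = ‖hat χ ξ‖ * (br ξ ^ sx n * ‖hat χ ξ‖) := by ring
      _ ≤ C * (br ξ ^ sx n * ‖hat χ ξ‖) := mul_le_mul_of_nonneg_right h2 h4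

theorem int_one (hF : CUTF) (hS : CUTS) {n : ℕ} (x₀ : En n) {ρ : ℝ} (hρ : 0 < ρ) {t : ℝ}
    (ht : 0 ≤ t) : ∫ a : En n, br a ^ t * ‖hat (cut x₀ ρ) a‖ ≤
      (max 1 ρ⁻¹) ^ (2 * t) * ∫ b : En n, br b ^ t * ‖hat chi b‖ := by
  have e : (∫ a : En n, br a ^ t * ‖hat (cut x₀ ρ) a‖) =
      ∫ b : En n, br (ρ⁻¹ • b) ^ t * ‖hat chi b‖ := by
    rw [← subst_int hρ (fun b : En n => br (ρ⁻¹ • b) ^ t * ‖hat chi b‖), ← integral_const_mul]
    congr 1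
    funext a
    rw [norm_hat_cut hS x₀ hρ, smul_smul, inv_mul_cancel₀ hρ.ne', one_smul]
    ring
  rw [e, ← integral_const_mul]
  refine integral_mono_of_nonneg (Filter.Eventually.of_forall fun b =>
    mul_nonneg (br_rpow_pos _ _).le (norm_nonneg _)) (((hF n chi isCut_chi).1 t).const_mul _)
    (Filter.Eventually.of_forall fun b => ?_)
  have := mul_le_mul_of_nonneg_right (br_scale_pow hρ ht b) (norm_nonneg (hat chi b))
  simpa only [mul_assoc] using this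

theorem norm_le_br {n : ℕ} (b : En n) : ‖b‖ ≤ br b ^ ((1 : ℝ) / 2) := by
  rw [← Real.sqrt_eq_rpow]
  refine Real.le_sqrt_of_sq_le ?_
  unfold br
  have h1 : (1 : ℝ) ≤ 2 * Real.pi := by nlinarith [Real.pi_gt_three]
  have h2 : ‖b‖ ≤ 2 * Real.pi * ‖b‖ := by nlinarith [norm_nonneg b]
  have h3 := pow_le_pow_left₀ (norm_nonneg b) h2 2
  linarith

theorem int_J (hF : CUTF) (n : ℕ) :
    Integrable (fun b : En n => ‖b‖ * br b ^ ((n : ℝ) / 2) * ‖hat chi b‖) := by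
  refine ((hF n chi isCut_chi).1 (1 / 2 + (n : ℝ) / 2)).mono' ?_
    (Filter.Eventually.of_forall fun b => ?_)
  · exact ((continuous_norm.mul (continuous_br_rpow _)).mul
      (continuous_hat (isCut_chi.1.continuous.integrable_of_hasCompactSupport
        isCut_chi.2)).norm).aestronglyMeasurable
  · have h3 := (br_rpow_pos b ((n : ℝ) / 2)).le
    rw [Real.norm_of_nonneg (by positivity), Real.rpow_add (br_pos b)]
    exact mul_le_mul_of_nonneg_right (mul_le_mul_of_nonneg_right (norm_le_br b) h3) (norm_nonneg _)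

theorem int_two (hF : CUTF) (hS : CUTS) {n : ℕ} (x₀ : En n) {ρ : ℝ} (hρ : 0 < ρ) :
    ∫ a : En n, ‖a‖ * br a ^ ((n : ℝ) / 2) * ‖hat (cut x₀ ρ) a‖ ≤
      ρ⁻¹ * (max 1 ρ⁻¹) ^ n * ∫ b : En n, ‖b‖ * br b ^ ((n : ℝ) / 2) * ‖hat chi b‖ := by
  have e : (∫ a : En n, ‖a‖ * br a ^ ((n : ℝ) / 2) * ‖hat (cut x₀ ρ) a‖) =
      ∫ b : En n, ‖ρ⁻¹ • b‖ * br (ρ⁻¹ • b) ^ ((n : ℝ) / 2) * ‖hat chi b‖ := by
    rw [← subst_int hρ (fun b : En n => ‖ρ⁻¹ • b‖ * br (ρ⁻¹ • b) ^ ((n : ℝ) / 2) * ‖hat chi b‖),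
      ← integral_const_mul]
    congr 1
    funext a
    rw [norm_hat_cut hS x₀ hρ, smul_smul, inv_mul_cancel₀ hρ.ne', one_smul]
    ring
  rw [e, ← integral_const_mul]
  refine integral_mono_of_nonneg (Filter.Eventually.of_forall fun b => ?_)
    ((int_J hF n).const_mul _) (Filter.Eventually.of_forall fun b => ?_)
  · have h3 := (br_rpow_pos (ρ⁻¹ • b) ((n : ℝ) / 2)).le
    exact mul_nonneg (mul_nonneg (norm_nonneg _) h3) (norm_nonneg _)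
  · have h1 := br_scale_pow hρ (t := (n : ℝ) / 2) (by positivity) b
    have e2 : (max 1 ρ⁻¹ : ℝ) ^ (2 * ((n : ℝ) / 2)) = (max 1 ρ⁻¹) ^ n := by
      rw [mul_div_cancel₀ _ (two_ne_zero), Real.rpow_natCast]
    rw [e2] at h1
    show ‖ρ⁻¹ • b‖ * br (ρ⁻¹ • b) ^ ((n : ℝ) / 2) * ‖hat chi b‖ ≤
      ρ⁻¹ * (max 1 ρ⁻¹) ^ n * (‖b‖ * br b ^ ((n : ℝ) / 2) * ‖hat chi b‖)
    rw [norm_smul, norm_inv, Real.norm_of_nonneg hρ.le]
    calc ρ⁻¹ * ‖b‖ * br (ρ⁻¹ • b) ^ ((n : ℝ) / 2) * ‖hat chi b‖ ≤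
          ρ⁻¹ * ‖b‖ * ((max 1 ρ⁻¹) ^ n * br b ^ ((n : ℝ) / 2)) * ‖hat chi b‖ :=
          mul_le_mul_of_nonneg_right (mul_le_mul_of_nonneg_left h1 (by positivity))
            (norm_nonneg _)
      _ = _ := by ring

theorem NN_cut (hF : CUTF) (hS : CUTS) {n : ℕ} (x₀ : En n) {ρ : ℝ} (hρ : 1 ≤ ρ) :
    NN (sx n) (cut x₀ ρ) ≤ ρ ^ n * NN (sx n) (chi : En n → ℝ) := by
  have hρ0 : 0 < ρ := by linarith
  have hs : 0 ≤ sx n := by unfold sx; positivity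
  unfold NN
  have e : (∫ a : En n, br a ^ sx n * ‖hat (cut x₀ ρ) a‖ ^ 2) =
      ρ ^ n * ∫ b : En n, br (ρ⁻¹ • b) ^ sx n * ‖hat chi b‖ ^ 2 := by
    rw [← subst_int hρ0 (fun b : En n => br (ρ⁻¹ • b) ^ sx n * ‖hat chi b‖ ^ 2),
      ← mul_assoc, ← integral_const_mul]
    congr 1
    funext a
    rw [norm_hat_cut hS x₀ hρ0, smul_smul, inv_mul_cancel₀ hρ0.ne', one_smul]
    ring
  rw [e]
  refine mul_le_mul_of_nonneg_left ?_ (by positivity)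
  refine integral_mono_of_nonneg (Filter.Eventually.of_forall fun b =>
    mul_nonneg (br_rpow_pos _ _).le (sq_nonneg _)) (ad_cut hF isCut_chi).2.2
    (Filter.Eventually.of_forall fun b => ?_)
  refine mul_le_mul_of_nonneg_right ?_ (sq_nonneg _)
  have h1 := br_scale_pow hρ0 hs b
  have h2 : (max 1 ρ⁻¹ : ℝ) = 1 := max_eq_left (inv_le_one_of_one_le₀ hρ)
  rwa [h2, Real.one_rpow, one_mul] at h1

theorem scal (hF : CUTF) (hS : CUTS) (hM : MULT) (hC : COMM) : SCAL := by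
  intro n hn
  obtain ⟨C1, hC1, hM⟩ := hM n hn
  obtain ⟨C2, hC2, hC⟩ := hC n hn
  have hs : 0 ≤ sx n := by unfold sx; positivity
  set I : ℝ := ∫ b : En n, br b ^ (sx n / 2) * ‖hat chi b‖ with hI
  set J : ℝ := ∫ b : En n, ‖b‖ * br b ^ ((n : ℝ) / 2) * ‖hat chi b‖ with hJ
  have hI0 : 0 ≤ I := integral_nonneg fun b => mul_nonneg (br_rpow_pos _ _).le (norm_nonneg _)
  have hJ0 : 0 ≤ J := integral_nonneg fun b =>
    mul_nonneg (mul_nonneg (norm_nonneg _) (br_rpow_pos _ _).le) (norm_nonneg _)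
  have hN0 : 0 ≤ NN (sx n) (chi : En n → ℝ) := NN_nonneg _ _
  refine ⟨C1 * I ^ 2 + C2 * J ^ 2 + NN (sx n) (chi : En n → ℝ) + 1, by positivity, ?_⟩
  intro x₀ ρ hρ
  have hμ1 : (1 : ℝ) ≤ max 1 ρ⁻¹ := le_max_left _ _
  have hμ0 : (0 : ℝ) ≤ max 1 ρ⁻¹ := by linarith
  have hcut : IsCut (cut x₀ ρ) := isCut_cut x₀ hρ
  refine ⟨fun u hu => ?_, ad_cut hF hcut, fun hρ1 => ?_⟩
  · obtain ⟨m1, m2⟩ := hM (cut x₀ ρ) u hcut hu
    refine ⟨m1, m2.trans ?_, (hC (cut x₀ ρ) u hcut hu).trans ?_⟩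
    · have h1 := int_one hF hS x₀ hρ (t := sx n / 2) (by positivity)
      have h0 : 0 ≤ ∫ a : En n, br a ^ (sx n / 2) * ‖hat (cut x₀ ρ) a‖ :=
        integral_nonneg fun b => mul_nonneg (br_rpow_pos _ _).le (norm_nonneg _)
      have h2 := pow_le_pow_left₀ h0 h1 2
      have e1 : ((max 1 ρ⁻¹ : ℝ) ^ (2 * (sx n / 2)) * I) ^ 2 = (max 1 ρ⁻¹) ^ (n + 1) * I ^ 2 := by
        rw [mul_pow, ← Real.rpow_natCast, ← Real.rpow_natCast (max 1 ρ⁻¹) (n + 1),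
          ← Real.rpow_mul hμ0]
        congr 2
        unfold sx
        push_cast
        ring
      rw [← hI, e1] at h2
      have hNu : 0 ≤ NN (sx n) u := NN_nonneg _ _
      calc C1 * (∫ a : En n, br a ^ (sx n / 2) * ‖hat (cut x₀ ρ) a‖) ^ 2 * NN (sx n) u ≤
            C1 * ((max 1 ρ⁻¹) ^ (n + 1) * I ^ 2) * NN (sx n) u :=
            mul_le_mul_of_nonneg_right (mul_le_mul_of_nonneg_left h2 hC1.le) hNu
        _ = (C1 * I ^ 2) * (max 1 ρ⁻¹) ^ (n + 1) * NN (sx n) u := by ring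
        _ ≤ _ := by
            refine mul_le_mul_of_nonneg_right (mul_le_mul_of_nonneg_right ?_ (by positivity)) hNu
            have : 0 ≤ C2 * J ^ 2 := by positivity
            linarith
    · have h1 := int_two hF hS x₀ hρ
      have h0 : 0 ≤ ∫ a : En n, ‖a‖ * br a ^ ((n : ℝ) / 2) * ‖hat (cut x₀ ρ) a‖ :=
        integral_nonneg fun b =>
          mul_nonneg (mul_nonneg (norm_nonneg _) (br_rpow_pos _ _).le) (norm_nonneg _)
      have h2 := pow_le_pow_left₀ h0 h1 2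
      have e1 : (ρ⁻¹ * (max 1 ρ⁻¹ : ℝ) ^ n * J) ^ 2 =
          ρ⁻¹ ^ 2 * (max 1 ρ⁻¹) ^ (2 * n) * J ^ 2 := by
        rw [mul_pow, mul_pow, ← pow_mul, mul_comm n 2]
      rw [← hJ, e1] at h2
      have hNu : 0 ≤ NN (sx n - 1) u := NN_nonneg _ _
      refine add_le_add_right ?_ _
      calc C2 * (∫ a : En n, ‖a‖ * br a ^ ((n : ℝ) / 2) * ‖hat (cut x₀ ρ) a‖) ^ 2 *
            NN (sx n - 1) u ≤
            C2 * (ρ⁻¹ ^ 2 * (max 1 ρ⁻¹) ^ (2 * n) * J ^ 2) * NN (sx n - 1) u :=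
            mul_le_mul_of_nonneg_right (mul_le_mul_of_nonneg_left h2 hC2.le) hNu
        _ = (C2 * J ^ 2) * (ρ⁻¹ ^ 2 * (max 1 ρ⁻¹) ^ (2 * n)) * NN (sx n - 1) u := by ring
        _ ≤ _ := by
            refine mul_le_mul_of_nonneg_right (mul_le_mul_of_nonneg_right ?_ (by positivity)) hNu
            have : 0 ≤ C1 * I ^ 2 := by positivity
            linarith
  · refine (NN_cut hF hS x₀ hρ1).trans ?_
    rw [mul_comm]
    refine mul_le_mul_of_nonneg_right ?_ (by positivity)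
    have h1 : 0 ≤ C1 * I ^ 2 := by positivity
    have h2 : 0 ≤ C2 * J ^ 2 := by positivity
    linarith

end Pool.Agent.Helper31.MB
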