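import Pool.Agent.Helper70.MB.Goals

/-! Packet MB-SYMB of helper70: inequalities for the symbol. -/

set_option autoImplicit false

namespace Pool.Agent.Helper31.MB

open MeasureTheory Set Metric
open Pool.Agent.Results.MP_91ee6f_gt Pool.Agent.Helper70.MB

theorem br_sub_comm {n : ℕ} (ξ ζ : En n) : br (ξ - ζ) = br (ζ - ξ) := by
  unfold br
  rw [norm_sub_rev]

theorem br_tri {n : ℕ} (ξ ζ : En n) : br ζ ≤ 2 * br ξ * br (ζ - ξ) := by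
  unfold br
  have h : ‖ζ‖ ≤ ‖ξ‖ + ‖ζ - ξ‖ := by
    have := norm_add_le ξ (ζ - ξ)
    rwa [add_sub_cancel] at this
  have hpi : (0 : ℝ) ≤ 2 * Real.pi := by positivity
  set X := 2 * Real.pi * ‖ξ‖ with hX
  set Y := 2 * Real.pi * ‖ζ - ξ‖ with hY
  set Z := 2 * Real.pi * ‖ζ‖ with hZ
  have hX0 : 0 ≤ X := by positivity
  have hY0 : 0 ≤ Y := by positivity
  have hZ0 : 0 ≤ Z := by positivity
  have hXYZ : Z ≤ X + Y := by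
    have := mul_le_mul_of_nonneg_left h hpi
    rw [hX, hY, hZ]
    linarith
  have h1 : Z ^ 2 ≤ (X + Y) ^ 2 := pow_le_pow_left₀ hZ0 hXYZ 2
  nlinarith [sq_nonneg (X - Y), mul_nonneg (sq_nonneg X) (sq_nonneg Y)]

theorem rpow_diff {a b s : ℝ} (hb : 0 < b) (hab : b ≤ a) (hs : 1 ≤ s) :
    a ^ s - b ^ s ≤ s * (a - b) * a ^ (s - 1) := by
  have ha : 0 < a := lt_of_lt_of_le hb hab
  have h1 : 1 + s * (b / a - 1) ≤ (1 + (b / a - 1)) ^ s := by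
    refine one_add_mul_self_le_rpow_one_add ?_ hs
    have : 0 ≤ b / a := by positivity
    linarith
  have h2 : (1 + (b / a - 1)) ^ s = b ^ s / a ^ s := by
    rw [add_sub_cancel, Real.div_rpow hb.le ha.le]
  have h3 : 0 < a ^ s := Real.rpow_pos_of_pos ha s
  have h4 : a ^ s * (1 + s * (b / a - 1)) ≤ b ^ s := by
    rw [h2] at h1
    have := mul_le_mul_of_nonneg_left h1 h3.le
    rwa [mul_div_cancel₀ _ h3.ne'] at this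
  have h5 : a ^ s = a ^ (s - 1) * a := by
    rw [← Real.rpow_add_one ha.ne', sub_add_cancel]
  have h6 : a ^ s * (s * (b / a - 1)) = s * (b - a) * a ^ (s - 1) := by
    rw [h5]
    field_simp
  nlinarith

theorem br_diff {n : ℕ} (ξ ζ : En n) (h : br ξ ≤ br ζ) :
    br ζ - br ξ ≤ 4 * Real.pi * ‖ζ - ξ‖ * br ζ ^ ((1 : ℝ) / 2) := by
  have h1 : |‖ζ‖ - ‖ξ‖| ≤ ‖ζ - ξ‖ := abs_norm_sub_norm_le ζ ξ
  have hz : 2 * Real.pi * ‖ζ‖ ≤ br ζ ^ ((1 : ℝ) / 2) := by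
    rw [← Real.sqrt_eq_rpow]
    refine Real.le_sqrt_of_sq_le ?_
    unfold br
    linarith
  have hx : 2 * Real.pi * ‖ξ‖ ≤ br ζ ^ ((1 : ℝ) / 2) := by
    rw [← Real.sqrt_eq_rpow]
    refine Real.le_sqrt_of_sq_le ?_
    refine le_trans ?_ h
    unfold br
    linarith
  have e : br ζ - br ξ = (2 * Real.pi * (‖ζ‖ - ‖ξ‖)) * (2 * Real.pi * ‖ζ‖ + 2 * Real.pi * ‖ξ‖) := by
    unfold br
    ring
  have h2 : 2 * Real.pi * (‖ζ‖ - ‖ξ‖) ≤ 2 * Real.pi * ‖ζ - ξ‖ :=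
    mul_le_mul_of_nonneg_left ((le_abs_self _).trans h1) (by positivity)
  have h3 : (0 : ℝ) ≤ 2 * Real.pi * ‖ζ‖ + 2 * Real.pi * ‖ξ‖ := by positivity
  have h4 : (0 : ℝ) ≤ 2 * Real.pi * ‖ζ - ξ‖ := by positivity
  rw [e]
  calc 2 * Real.pi * (‖ζ‖ - ‖ξ‖) * (2 * Real.pi * ‖ζ‖ + 2 * Real.pi * ‖ξ‖) ≤
        2 * Real.pi * ‖ζ - ξ‖ * (2 * Real.pi * ‖ζ‖ + 2 * Real.pi * ‖ξ‖) :=
        mul_le_mul_of_nonneg_right h2 h3
    _ ≤ 2 * Real.pi * ‖ζ - ξ‖ * (br ζ ^ ((1 : ℝ) / 2) + br ζ ^ ((1 : ℝ) / 2)) :=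
        mul_le_mul_of_nonneg_left (add_le_add hz hx) h4
    _ = 4 * Real.pi * ‖ζ - ξ‖ * br ζ ^ ((1 : ℝ) / 2) := by ring

theorem half {n : ℕ} {s : ℝ} (hs : 1 ≤ s) (hsn : s - 1 / 2 = (n : ℝ) / 2) (ξ ζ : En n)
    (h : br ξ ≤ br ζ) (p q : ℝ) (hp : 0 < p) (hq : 0 < q) (h1 : br ζ ≤ 2 * p * br (ζ - ξ))
    (h2 : br ζ ≤ 2 * q * br (ζ - ξ)) :
    br ζ ^ s - br ξ ^ s ≤ 4 * Real.pi * s * 2 ^ (s - 1 / 2) *
      (‖ζ - ξ‖ * br (ζ - ξ) ^ ((n : ℝ) / 2)) * (p ^ (s / 2) * q ^ ((s - 1) / 2)) := by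
  have hz := br_pos ζ
  have hd := br_pos (ζ - ξ)
  have a1 := rpow_diff (br_pos ξ) h hs
  have a2 := br_diff ξ ζ h
  have a3 : br ζ ^ ((1 : ℝ) / 2) * br ζ ^ (s - 1) = br ζ ^ (s / 2) * br ζ ^ ((s - 1) / 2) := by
    rw [← Real.rpow_add hz, ← Real.rpow_add hz]
    congr 1
    ring
  have a4 : br ζ ^ (s / 2) ≤ 2 ^ (s / 2) * p ^ (s / 2) * br (ζ - ξ) ^ (s / 2) := by
    rw [← Real.mul_rpow (by norm_num) hp.le, ← Real.mul_rpow (by positivity) hd.le]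
    exact Real.rpow_le_rpow hz.le h1 (by linarith)
  have a5 : br ζ ^ ((s - 1) / 2) ≤ 2 ^ ((s - 1) / 2) * q ^ ((s - 1) / 2) *
      br (ζ - ξ) ^ ((s - 1) / 2) := by
    rw [← Real.mul_rpow (by norm_num) hq.le, ← Real.mul_rpow (by positivity) hd.le]
    exact Real.rpow_le_rpow hz.le h2 (by linarith)
  have a6 : (2 : ℝ) ^ (s / 2) * 2 ^ ((s - 1) / 2) = 2 ^ (s - 1 / 2) := by
    rw [← Real.rpow_add (by norm_num)]
    congr 1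
    ring
  have a7 : br (ζ - ξ) ^ (s / 2) * br (ζ - ξ) ^ ((s - 1) / 2) = br (ζ - ξ) ^ ((n : ℝ) / 2) := by
    rw [← Real.rpow_add hd, ← hsn]
    congr 1
    ring
  have p1 : 0 ≤ br ζ ^ (s - 1) := (Real.rpow_pos_of_pos hz _).le
  have p2 : 0 ≤ br ζ ^ (s / 2) := (Real.rpow_pos_of_pos hz _).le
  have p3 : 0 ≤ br ζ ^ ((s - 1) / 2) := (Real.rpow_pos_of_pos hz _).le
  calc br ζ ^ s - br ξ ^ s ≤ s * (br ζ - br ξ) * br ζ ^ (s - 1) := a1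
    _ ≤ s * (4 * Real.pi * ‖ζ - ξ‖ * br ζ ^ ((1 : ℝ) / 2)) * br ζ ^ (s - 1) :=
        mul_le_mul_of_nonneg_right (mul_le_mul_of_nonneg_left a2 (by linarith)) p1
    _ = 4 * Real.pi * s * ‖ζ - ξ‖ * (br ζ ^ (s / 2) * br ζ ^ ((s - 1) / 2)) := by
        rw [← a3]; ring
    _ ≤ 4 * Real.pi * s * ‖ζ - ξ‖ * ((2 ^ (s / 2) * p ^ (s / 2) * br (ζ - ξ) ^ (s / 2)) *
          (2 ^ ((s - 1) / 2) * q ^ ((s - 1) / 2) * br (ζ - ξ) ^ ((s - 1) / 2))) :=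
        mul_le_mul_of_nonneg_left (mul_le_mul a4 a5 p3 (by positivity)) (by positivity)
    _ = 4 * Real.pi * s * (2 ^ (s / 2) * 2 ^ ((s - 1) / 2)) *
          (‖ζ - ξ‖ * (br (ζ - ξ) ^ (s / 2) * br (ζ - ξ) ^ ((s - 1) / 2))) *
          (p ^ (s / 2) * q ^ ((s - 1) / 2)) := by ring
    _ = _ := by rw [a6, a7]

theorem symb : SYMB := by
  intro n hn
  refine ⟨br_tri, ?_⟩
  have hn1 : (1 : ℝ) ≤ n := by exact_mod_cast hn
  have hs : 1 ≤ sx n := by unfold sx; linarith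
  have hsn : sx n - 1 / 2 = (n : ℝ) / 2 := by unfold sx; ring
  refine ⟨4 * Real.pi * sx n * 2 ^ (sx n - 1 / 2), by positivity, ?_⟩
  intro ξ ζ
  have hd1 := one_le_br (ζ - ξ)
  have t1 : ∀ x : ℝ, 0 < x → x ≤ 2 * x * br (ζ - ξ) := by
    intro x hx
    nlinarith
  rcases le_total (br ξ) (br ζ) with h | h
  · rw [abs_of_nonneg (sub_nonneg.2 (Real.rpow_le_rpow (br_pos ξ).le h (by linarith)))]
    exact half hs hsn ξ ζ h (br ζ) (br ξ) (br_pos _) (br_pos _) (t1 _ (br_pos _)) (br_tri ξ ζ)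
  · rw [abs_sub_comm, abs_of_nonneg (sub_nonneg.2 (Real.rpow_le_rpow (br_pos ζ).le h
      (by linarith)))]
    have e1 : br (ξ - ζ) = br (ζ - ξ) := br_sub_comm ξ ζ
    have e2 : ‖ξ - ζ‖ = ‖ζ - ξ‖ := norm_sub_rev _ _
    have h3 := half hs hsn ζ ξ h (br ζ) (br ξ) (br_pos _) (br_pos _)
      (br_tri ζ ξ) (by rw [e1]; exact t1 _ (br_pos _))
    rw [e1, e2] at h3
    exact h3

end Pool.Agent.Helper31.MB
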